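import Pool.Agent.R729.Trop.Geom
import Pool.Agent.R729.Trop.Fub

/-!
# A leafwise complex cycle which is not locally a superposition of pseudoholomorphic curves

`M = ℂ² × ℝ^q` is foliated by the leaves `ℂ² × {y}`, with the standard complex structure `J = i` on
the leaves. The cycle is, up to a factor, the closed positive current `dd^c max (re w₁) (re w₂) 0` on
the leaf `y = 0`: the sum of the integrals over the half planes contained in the three families
`w₁ = i t, re w₂ < 0`; `w₂ = i t, re w₁ < 0`; `w₂ = w₁ + i t, re w₁ > 0` (`t ∈ ℝ`).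

If on a neighbourhood `U` of `0` it were a superposition of pseudoholomorphic curves, then almost all
of these curves would be contained in the support, near `0`. Such a curve cannot meet the plane
`re w₁ = re w₂ = 0` (open mapping theorem), so near `0` it is contained in one half plane of the
families above; but it is closed in `U`, and this is impossible as the half plane is not closed.
-/

open scoped Distributions ContDiff Manifold NNReal Topology
open MeasureTheory TopologicalSpace Set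

noncomputable section

namespace Pool.Agent.Results.MP_03adb9_gt.TropicalCycle

/-- The manifold `M = ℂ² × ℝ^q`. The leaves of the foliation are the sets `ℂ² × {y}`. -/
abbrev M (q : ℕ) : Type := (ℂ × ℂ) × (Fin q → ℝ)

variable {q : ℕ}

instance instM (q : ℕ) : NormedAddCommGroup (M q) := inferInstance
instance instMR (q : ℕ) : NormedSpace ℝ (M q) := inferInstance
instance instMT (q : ℕ) : TopologicalSpace (M q) := inferInstance

/-- Alternating `p`-forms on the tangent space `T_x M = M`. -/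
abbrev Alt (q p : ℕ) : Type := M q [⋀^Fin p]→L[ℝ] ℝ

instance instA (q p : ℕ) : NormedAddCommGroup (Alt q p) := inferInstance
instance instAR (q p : ℕ) : NormedSpace ℝ (Alt q p) := inferInstance

/-- `Ω^p_c(U)`: smooth `p`-forms with compact support in the open set `U`, with the usual
`C^∞` (LF) topology. -/
abbrev Form (p : ℕ) (U : Opens (M q)) : Type := 𝓓(U, Alt q p)

instance instF (p : ℕ) (U : Opens (M q)) : AddCommGroup (Form p U) := inferInstance
instance instFR (p : ℕ) (U : Opens (M q)) : Module ℝ (Form p U) := inferInstance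
instance instFT (p : ℕ) (U : Opens (M q)) : TopologicalSpace (Form p U) := inferInstance

/-- `p`-currents on `U`: continuous linear functionals on `Ω^p_c(U)`. -/
abbrev Current (p : ℕ) (U : Opens (M q)) : Type := Form p U →L[ℝ] ℝ

/-- A current is a cycle if it vanishes on exact forms. -/
def IsCycle {p : ℕ} {U : Opens (M q)} (c : Current (p + 1) U) : Prop :=
  ∀ (β : Form p U) (α : Form (p + 1) U), (∀ x, α x = extDeriv β x) → c α = 0

/-- `Λ² T_x M`, as the space of linear functionals on the alternating 2-forms. -/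
abbrev TwoVec (q : ℕ) : Type := Alt q 2 →L[ℝ] ℝ

/-- The 2-vector `v ∧ w`. -/
def wedge (v w : M q) : TwoVec q := ContinuousAlternatingMap.apply ℝ (M q) ℝ ![v, w]

/-- The leafwise almost complex structure `J` on `T F = ℂ² × 0`. -/
def J (v : ℂ × ℂ) : ℂ × ℂ := Complex.I • v

/-- `w` is a finite sum `∑ tᵢ vᵢ ∧ J vᵢ`, for `tᵢ ≥ 0` and `vᵢ` tangent to the leaf. -/
def IsFiniteSum (w : TwoVec q) : Prop :=
  ∃ (n : ℕ) (t : Fin n → ℝ) (v : Fin n → ℂ × ℂ), (∀ i, 0 ≤ t i) ∧
    ∀ a : Alt q 2, w a = ∑ i, t i * wedge (v i, 0) (J (v i), 0) a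

/-- The structure cone `C_x ⊆ Λ² T_x M` (it does not depend on `x`): the closed convex cone
generated by the 2-vectors `v ∧ J v`, for `v` tangent to the leaf. -/
def structureCone (q : ℕ) : Set (TwoVec q) := closure {w | IsFiniteSum w}

/-- `T` is a finite sum of Dirac currents `α ↦ tᵢ wᵢ(α(xᵢ))`, with `tᵢ ≥ 0`, `xᵢ ∈ U` and
`wᵢ ∈ C_{xᵢ}`. -/
def IsDiracSum {U : Opens (M q)} (T : Form 2 U → ℝ) : Prop :=
  ∃ (n : ℕ) (t : Fin n → ℝ) (x : Fin n → M q) (w : Fin n → TwoVec q),
    (∀ i, 0 ≤ t i ∧ x i ∈ U ∧ w i ∈ structureCone q) ∧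
    ∀ α : Form 2 U, T α = ∑ i, t i * w i (α (x i))

/-- `c` is a `C`-current: it is in the closed convex cone generated by the Dirac currents of elements
of the structure cone, for the weak-* topology (pointwise convergence on forms). -/
def IsCCurrent {U : Opens (M q)} (c : Current 2 U) : Prop :=
  (fun α => c α) ∈ closure {T : Form 2 U → ℝ | IsDiracSum T}

/-- `z ↦ (h z, y)` is a somewhere injective, proper map from the Riemann surface `S` to `U`, with
image in the leaf `ℂ² × {y}`, and pseudoholomorphic, that is, `dh ∘ j = J ∘ dh`. -/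
structure IsPseudoholomorphic (U : Opens (M q)) (S : Type) [TopologicalSpace S] [ChartedSpace ℂ S]
    (h : S → ℂ × ℂ) (y : Fin q → ℝ) : Prop where
  holomorphic : MDifferentiable 𝓘(ℂ) 𝓘(ℂ, ℂ × ℂ) h
  maps : ∀ z, (h z, y) ∈ U
  proper : ∀ K : Set (M q), IsCompact K → K ⊆ U → IsCompact {z | (h z, y) ∈ K}
  somewhere_injective : ∃ z₀, mfderiv 𝓘(ℂ) 𝓘(ℂ, ℂ × ℂ) h z₀ ≠ 0 ∧ ∀ z, h z = h z₀ → z = z₀

/-- `I = ∫_S u^* α`, for a proper map `u : S → U` from a Riemann surface `S`, computed with a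
partition of unity `ρ` on `u⁻¹(supp α)` subordinate to charts `φ` of `S`. -/
def IsIntegralOver {U : Opens (M q)} {S : Type} [TopologicalSpace S] [ChartedSpace ℂ S]
    (u : S → M q) (α : Form 2 U) (I : ℝ) : Prop :=
  ∃ (n : ℕ) (φ : Fin n → OpenPartialHomeomorph S ℂ) (ρ : Fin n → S → ℝ),
    (∀ i, φ i ∈ atlas ℂ S) ∧ (∀ i, Continuous (ρ i)) ∧ (∀ i z, 0 ≤ ρ i z) ∧
    (∀ i, HasCompactSupport (ρ i)) ∧ (∀ i, tsupport (ρ i) ⊆ (φ i).source) ∧
    (∀ z, u z ∈ tsupport α → ∑ i, ρ i z = 1) ∧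
    I = ∑ i, ∫ w in (φ i).target, ρ i ((φ i).symm w) *
      α (u ((φ i).symm w)) ![fderiv ℝ (u ∘ (φ i).symm) w 1, fderiv ℝ (u ∘ (φ i).symm) w Complex.I]

/-- `T ∈ P_U`: `T` is the 2-current on `U` given by integration over a pseudoholomorphic curve
in `U`. -/
def IsCurve {U : Opens (M q)} (T : Current 2 U) : Prop :=
  ∃ (S : Type) (_ : TopologicalSpace S) (_ : T2Space S) (_ : ConnectedSpace S)
    (_ : ChartedSpace ℂ S) (_ : IsManifold 𝓘(ℂ) ω S) (h : S → ℂ × ℂ) (y : Fin q → ℝ),
    IsPseudoholomorphic U S h y ∧ ∀ α : Form 2 U, IsIntegralOver (fun z => (h z, y)) α (T α)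

/-- On `U` the current `c` is a superposition of pseudoholomorphic curves: for some non-negative
measure `ν` on a measurable space `Ω` of pseudoholomorphic curves in `U`,
`c(α') = ∫ c'(α) dν(c')` for all `α ∈ Ω²_c(U)`, where `α'` is the extension of `α` by zero.
(For `Ω = P_U` with a `σ`-algebra for which all the functions `c' ↦ c'(α)` are measurable, this
is a measure on `P_U`.) -/
def IsSuperposition (c : Current 2 (⊤ : Opens (M q))) (U : Opens (M q)) : Prop :=
  ∃ (Ω : Type) (_ : MeasurableSpace Ω) (ν : Measure Ω) (κ : Ω → Current 2 U),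
    (∀ s, IsCurve (κ s)) ∧ ∀ (α : Form 2 U) (α' : Form 2 (⊤ : Opens (M q))), (∀ x, α' x = α x) →
      Integrable (fun s => κ s α) ν ∧ c α' = ∫ s, κ s α ∂ν

/-! ### Exact forms and extension by zero -/

/-- The exterior derivative `Ω^p_c(U) → Ω^{p+1}_c(U)`. -/
def dForm {p : ℕ} {U : Opens (M q)} (β : Form p U) : Form (p + 1) U where
  toFun := extDeriv β
  contDiff' := by
    have h1 : ContDiff ℝ ∞ (fderiv ℝ β) := β.contDiff.fderiv_right (by simp)
    exact (ContinuousAlternatingMap.alternatizeUncurryFinCLM ℝ (M q) ℝ).contDiff.comp h1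
  hasCompactSupport' := by
    exact (β.hasCompactSupport.fderiv ℝ).comp_left
      (g := ContinuousAlternatingMap.alternatizeUncurryFinCLM ℝ (M q) ℝ) (map_zero _)
  tsupport_subset' := by
    refine (closure_mono ?_).trans ((tsupport_fderiv_subset ℝ).trans β.tsupport_subset)
    intro x hx h
    apply hx
    simp only [extDeriv]
    rw [h]
    exact map_zero (ContinuousAlternatingMap.alternatizeUncurryFinCLM ℝ (M q) ℝ)

/-- The extension by zero of a compactly supported form on `U` to `M`. -/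
def extend {p : ℕ} {U : Opens (M q)} (α : Form p U) : Form p (⊤ : Opens (M q)) where
  toFun := α
  contDiff' := α.contDiff
  hasCompactSupport' := α.hasCompactSupport
  tsupport_subset' := fun _ _ => trivial

/-! ### The current -/

/-- The closed half space over the first half line of the tropical line. -/
def iA (q : ℕ) : (ℝ × (ℝ × ℝ)) →L[ℝ] M q :=
  LinearMap.toContinuousLinearMap
    { toFun := fun p => ((⟨0, p.2.1⟩, ⟨p.1, p.2.2⟩), 0)
      map_add' := fun x y => by
        refine Prod.ext (Prod.ext ?_ ?_) ?_ <;> simp [Complex.ext_iff]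
      map_smul' := fun c x => by
        refine Prod.ext (Prod.ext ?_ ?_) ?_ <;> simp [Complex.ext_iff] }

/-- The closed half space over the second half line of the tropical line. -/
def iB (q : ℕ) : (ℝ × (ℝ × ℝ)) →L[ℝ] M q :=
  LinearMap.toContinuousLinearMap
    { toFun := fun p => ((⟨p.1, p.2.1⟩, ⟨0, p.2.2⟩), 0)
      map_add' := fun x y => by
        refine Prod.ext (Prod.ext ?_ ?_) ?_ <;> simp [Complex.ext_iff]
      map_smul' := fun c x => by
        refine Prod.ext (Prod.ext ?_ ?_) ?_ <;> simp [Complex.ext_iff] }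

/-- The closed half space over the third half line of the tropical line. -/
def iC (q : ℕ) : (ℝ × (ℝ × ℝ)) →L[ℝ] M q :=
  LinearMap.toContinuousLinearMap
    { toFun := fun p => ((⟨p.1, p.2.1⟩, ⟨p.1, p.2.2⟩), 0)
      map_add' := fun x y => by
        refine Prod.ext (Prod.ext ?_ ?_) ?_ <;> simp [Complex.ext_iff]
      map_smul' := fun c x => by
        refine Prod.ext (Prod.ext ?_ ?_) ?_ <;> simp [Complex.ext_iff] }

lemma iA_apply (p : ℝ × (ℝ × ℝ)) : iA q p = ((⟨0, p.2.1⟩, ⟨p.1, p.2.2⟩), 0) := rfl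
lemma iB_apply (p : ℝ × (ℝ × ℝ)) : iB q p = ((⟨p.1, p.2.1⟩, ⟨0, p.2.2⟩), 0) := rfl
lemma iC_apply (p : ℝ × (ℝ × ℝ)) : iC q p = ((⟨p.1, p.2.1⟩, ⟨p.1, p.2.2⟩), 0) := rfl

lemma norm_iA (p : ℝ × (ℝ × ℝ)) : ‖p‖ ≤ ‖iA q p‖ := by
  rw [iA_apply, Prod.norm_def, Prod.norm_def, Prod.norm_def, Prod.norm_def]
  have h1 := Complex.abs_im_le_norm (⟨0, p.2.1⟩ : ℂ)
  have h2 := Complex.abs_re_le_norm (⟨p.1, p.2.2⟩ : ℂ)
  have h3 := Complex.abs_im_le_norm (⟨p.1, p.2.2⟩ : ℂ)
  simp only [Real.norm_eq_abs] at h1 h2 h3 ⊢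
  refine max_le ?_ (max_le ?_ ?_)
  · exact h2.trans ((le_max_right _ _).trans (le_max_left _ _))
  · exact h1.trans ((le_max_left _ _).trans (le_max_left _ _))
  · exact h3.trans ((le_max_right _ _).trans (le_max_left _ _))

lemma norm_iB (p : ℝ × (ℝ × ℝ)) : ‖p‖ ≤ ‖iB q p‖ := by
  rw [iB_apply, Prod.norm_def, Prod.norm_def, Prod.norm_def, Prod.norm_def]
  have h1 := Complex.abs_re_le_norm (⟨p.1, p.2.1⟩ : ℂ)
  have h2 := Complex.abs_im_le_norm (⟨p.1, p.2.1⟩ : ℂ)
  have h3 := Complex.abs_im_le_norm (⟨0, p.2.2⟩ : ℂ)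
  simp only [Real.norm_eq_abs] at h1 h2 h3 ⊢
  refine max_le ?_ (max_le ?_ ?_)
  · exact h1.trans ((le_max_left _ _).trans (le_max_left _ _))
  · exact h2.trans ((le_max_left _ _).trans (le_max_left _ _))
  · exact h3.trans ((le_max_right _ _).trans (le_max_left _ _))

lemma norm_iC (p : ℝ × (ℝ × ℝ)) : ‖p‖ ≤ ‖iC q p‖ := by
  rw [iC_apply, Prod.norm_def, Prod.norm_def, Prod.norm_def, Prod.norm_def]
  have h1 := Complex.abs_re_le_norm (⟨p.1, p.2.1⟩ : ℂ)
  have h2 := Complex.abs_im_le_norm (⟨p.1, p.2.1⟩ : ℂ)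
  have h3 := Complex.abs_im_le_norm (⟨p.1, p.2.2⟩ : ℂ)
  simp only [Real.norm_eq_abs] at h1 h2 h3 ⊢
  refine max_le ?_ (max_le ?_ ?_)
  · exact h1.trans ((le_max_left _ _).trans (le_max_left _ _))
  · exact h2.trans ((le_max_left _ _).trans (le_max_left _ _))
  · exact h3.trans ((le_max_right _ _).trans (le_max_left _ _))

/-- The measure on `M` carried by a half space. -/
def halfMeasure (ι : (ℝ × (ℝ × ℝ)) →L[ℝ] M q) (I : Set ℝ) : Measure (M q) :=
  Measure.map ι ((volume : Measure (ℝ × (ℝ × ℝ))).restrict (I ×ˢ (univ : Set (ℝ × ℝ))))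

lemma locallyFinite_half {ι : (ℝ × (ℝ × ℝ)) →L[ℝ] M q} (hι : ∀ p, ‖p‖ ≤ ‖ι p‖) (I : Set ℝ) :
    IsLocallyFiniteMeasure (halfMeasure ι I) := by
  refine ⟨fun x => ⟨Metric.ball x 1, Metric.ball_mem_nhds x one_pos, ?_⟩⟩
  rw [halfMeasure, Measure.map_apply ι.continuous.measurable Metric.isOpen_ball.measurableSet]
  refine (Measure.restrict_apply_le _ _).trans_lt ?_
  have hsub : ι ⁻¹' Metric.ball x 1 ⊆ Metric.ball 0 (‖x‖ + 1) := by
    intro p hp
    rw [mem_preimage, Metric.mem_ball, dist_eq_norm] at hp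
    rw [mem_ball_zero_iff]
    calc ‖p‖ ≤ ‖ι p‖ := hι p
      _ = ‖(ι p - x) + x‖ := by rw [sub_add_cancel]
      _ ≤ ‖ι p - x‖ + ‖x‖ := norm_add_le _ _
      _ < ‖x‖ + 1 := by linarith
  exact (measure_mono hsub).trans_lt Metric.isBounded_ball.measure_lt_top

/-- Integration of `w` over a half space. -/
def cur (ι : (ℝ × (ℝ × ℝ)) →L[ℝ] M q) (I : Set ℝ) (w : Alt q 2 →L[ℝ] ℝ) :
    Current 2 (⊤ : Opens (M q)) :=
  TestFunction.integralAgainstBilinCLM (ContinuousLinearMap.apply ℝ ℝ) (halfMeasure ι I)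
    (fun _ => w)

lemma cur_apply {ι : (ℝ × (ℝ × ℝ)) →L[ℝ] M q} (hι : ∀ p, ‖p‖ ≤ ‖ι p‖) (I : Set ℝ)
    (w : Alt q 2 →L[ℝ] ℝ) (α : Form 2 (⊤ : Opens (M q))) :
    cur ι I w α = ∫ p in I ×ˢ (univ : Set (ℝ × ℝ)), w (α (ι p)) := by
  have := locallyFinite_half hι I
  rw [cur, TestFunction.integralAgainstBilinCLM_eq_integral
    ((continuous_const.locallyIntegrable).locallyIntegrableOn _), halfMeasure,
    integral_map ι.continuous.measurable.aemeasurable]
  · rfl
  · exact (((ContinuousLinearMap.apply ℝ ℝ : Alt q 2 →L[ℝ] _).continuous.comp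
      α.continuous).clm_apply continuous_const).aestronglyMeasurable

/-- The tropical current. -/
def tropCurrent (q : ℕ) : Current 2 (⊤ : Opens (M q)) :=
  cur (iA q) (Iio 0) (wedge ((0, 1), 0) (J (0, 1), 0)) +
  cur (iB q) (Iio 0) (wedge ((1, 0), 0) (J (1, 0), 0)) +
  cur (iC q) (Ioi 0) (wedge ((1, 1), 0) (J (1, 1), 0))

/-! ### It is a cycle -/

lemma dForm_apply (β : Form 1 (⊤ : Opens (M q))) (x v w : M q) :
    dForm β x ![v, w] =
      fderiv ℝ (fun x => β x ![w]) x v - fderiv ℝ (fun x => β x ![v]) x w := by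
  show extDeriv β x ![v, w] = _
  rw [extDeriv_apply (β.contDiff.differentiable (by simp) x)]
  have e0 : Fin.removeNth 0 ![v, w] = ![w] := by
    funext i
    fin_cases i
    rfl
  have e1 : Fin.removeNth 1 ![v, w] = ![v] := by
    funext i
    fin_cases i
    rfl
  refine (Fin.sum_univ_two _).trans ?_
  show (-1 : ℤ) ^ 0 • fderiv ℝ (fun x => β x (Fin.removeNth 0 ![v, w])) x v
    + (-1 : ℤ) ^ 1 • fderiv ℝ (fun x => β x (Fin.removeNth 1 ![v, w])) x w = _
  rw [e0, e1]
  simp [sub_eq_add_neg]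

/-- The coefficient function `β(v)`. -/
def coef (β : Form 1 (⊤ : Opens (M q))) (v : M q) (x : M q) : ℝ := β x ![v]

lemma coef_contDiff (β : Form 1 (⊤ : Opens (M q))) (v : M q) : ContDiff ℝ 1 (coef β v) := by
  have h1 : ContDiff ℝ 1 β := β.contDiff.of_le (by simp)
  exact (ContinuousAlternatingMap.apply ℝ (M q) ℝ ![v]).contDiff.comp h1

lemma coef_supp (β : Form 1 (⊤ : Opens (M q))) (v : M q) : HasCompactSupport (coef β v) :=
  β.hasCompactSupport.comp_left (g := fun L : Alt q 1 => L ![v]) (by simp)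

lemma coef_add (β : Form 1 (⊤ : Opens (M q))) (v w x : M q) :
    coef β (v + w) x = coef β v x + coef β w x := by
  have := (β x).map_update_add ![v] 0 v w
  have e : ∀ u : M q, Function.update ![v] 0 u = ![u] := by
    intro u
    funext i
    fin_cases i
    rfl
  rw [e, e, e] at this
  exact this

lemma pull_contDiff {ι : (ℝ × (ℝ × ℝ)) →L[ℝ] M q} (β : Form 1 (⊤ : Opens (M q))) (v : M q) :
    ContDiff ℝ 1 (coef β v ∘ ι) := (coef_contDiff β v).comp ι.contDiff

lemma pull_supp {ι : (ℝ × (ℝ × ℝ)) →L[ℝ] M q} (hι : ∀ p, ‖p‖ ≤ ‖ι p‖) (β : Form 1 (⊤ : Opens (M q))) (v : M q) :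
    HasCompactSupport (coef β v ∘ ι) := by
  have hK := coef_supp β v
  obtain ⟨R, hR⟩ := hK.isBounded.subset_closedBall (0 : M q)
  refine HasCompactSupport.intro (K := Metric.closedBall 0 R) (isCompact_closedBall _ _) ?_
  intro p hp
  refine image_eq_zero_of_notMem_tsupport (f := coef β v) (x := ι p) fun h => hp ?_
  have := hR h
  rw [mem_closedBall_zero_iff] at this ⊢
  exact (hι p).trans this

lemma pull_fderiv {ι : (ℝ × (ℝ × ℝ)) →L[ℝ] M q} (β : Form 1 (⊤ : Opens (M q))) (v : M q) (p u : ℝ × (ℝ × ℝ)) :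
    fderiv ℝ (coef β v) (ι p) (ι u) = fderiv ℝ (coef β v ∘ ι) p u := by
  have h1 := (((coef_contDiff β v).differentiable (by simp)) (ι p)).hasFDerivAt.comp p
    ι.hasFDerivAt
  rw [h1.fderiv]
  rfl

/-- The value of `cur` on an exact form. -/
lemma cur_dForm {ι : (ℝ × (ℝ × ℝ)) →L[ℝ] M q} (hι : ∀ p, ‖p‖ ≤ ‖ι p‖) (I : Set ℝ)
    (β : Form 1 (⊤ : Opens (M q))) {v w : M q} {a b : ℝ × (ℝ × ℝ)} (ha : ι a = v) (hb : ι b = w) :
    cur ι I (wedge v w) (dForm β) =
      (∫ p in I ×ˢ (univ : Set (ℝ × ℝ)), fderiv ℝ (coef β w ∘ ι) p a) -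
        ∫ p in I ×ˢ (univ : Set (ℝ × ℝ)), fderiv ℝ (coef β v ∘ ι) p b := by
  rw [cur_apply hι, ← integral_sub]
  · congr 1
    ext p
    show dForm β (ι p) ![v, w] = _
    rw [dForm_apply, ← pull_fderiv, ← pull_fderiv, ha, hb]
    rfl
  · exact ((R729.Trop.cont_dir (pull_contDiff β w) a).integrable_of_hasCompactSupport
      (R729.Trop.supp_dir (pull_supp hι β w) a)).integrableOn
  · exact ((R729.Trop.cont_dir (pull_contDiff β v) b).integrable_of_hasCompactSupport
      (R729.Trop.supp_dir (pull_supp hι β v) b)).integrableOn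

lemma isCycle_tropCurrent : IsCycle (tropCurrent q) := by
  intro β α hα
  have hα' : α = dForm β := DFunLike.ext _ _ hα
  rw [hα']
  have hA := norm_iA (q := q)
  have hB := norm_iB (q := q)
  have hC := norm_iC (q := q)
  have a1 : iA q (1, (0, 0)) = ((0, 1), 0) := by
    rw [iA_apply]; simp [Prod.ext_iff, Complex.ext_iff]
  have a2 : iA q (0, (0, 1)) = (J (0, 1), 0) := by
    rw [iA_apply]; simp [Prod.ext_iff, Complex.ext_iff, J]
  have b1 : iB q (1, (0, 0)) = ((1, 0), 0) := by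
    rw [iB_apply]; simp [Prod.ext_iff, Complex.ext_iff]
  have b2 : iB q (0, (1, 0)) = (J (1, 0), 0) := by
    rw [iB_apply]; simp [Prod.ext_iff, Complex.ext_iff, J]
  have c1 : iC q (1, (0, 0)) = ((1, 1), 0) := by
    rw [iC_apply]; simp [Prod.ext_iff, Complex.ext_iff]
  have c2 : iC q (0, (1, 1)) = (J (1, 1), 0) := by
    rw [iC_apply]; simp [Prod.ext_iff, Complex.ext_iff, J]
  have eA := R729.Trop.integral_Iio_normal (pull_contDiff (ι := iA q) β (J (0, 1), 0))
    (pull_supp hA β _)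
  have eB := R729.Trop.integral_Iio_normal (pull_contDiff (ι := iB q) β (J (1, 0), 0))
    (pull_supp hB β _)
  have eC := R729.Trop.integral_Ioi_normal (pull_contDiff (ι := iC q) β (J (1, 1), 0))
    (pull_supp hC β _)
  have tA := (R729.Trop.integral_tangential (pull_contDiff (ι := iA q) β ((0, 1), 0))
    (pull_supp hA β _) (Iio 0)).2
  have tB := (R729.Trop.integral_tangential (pull_contDiff (ι := iB q) β ((1, 0), 0))
    (pull_supp hB β _) (Iio 0)).1
  have tC1 := (R729.Trop.integral_tangential (pull_contDiff (ι := iC q) β ((1, 1), 0))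
    (pull_supp hC β _) (Ioi 0)).1
  have tC2 := (R729.Trop.integral_tangential (pull_contDiff (ι := iC q) β ((1, 1), 0))
    (pull_supp hC β _) (Ioi 0)).2
  have tC : ∫ p in (Ioi (0 : ℝ)) ×ˢ (univ : Set (ℝ × ℝ)),
      fderiv ℝ (coef β ((1, 1), 0) ∘ iC q) p (0, (1, 1)) = 0 := by
    have e : ∀ p, fderiv ℝ (coef β ((1, 1), 0) ∘ iC q) p (0, (1, 1)) =
        fderiv ℝ (coef β ((1, 1), 0) ∘ iC q) p (0, (1, 0)) +
        fderiv ℝ (coef β ((1, 1), 0) ∘ iC q) p (0, (0, 1)) := by
      intro p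
      rw [← map_add]
      simp
    simp_rw [e]
    rw [integral_add, tC1, tC2, add_zero]
    · exact ((R729.Trop.cont_dir (pull_contDiff β _) _).integrable_of_hasCompactSupport
        (R729.Trop.supp_dir (pull_supp hC β _) _)).integrableOn
    · exact ((R729.Trop.cont_dir (pull_contDiff β _) _).integrable_of_hasCompactSupport
        (R729.Trop.supp_dir (pull_supp hC β _) _)).integrableOn
  show cur (iA q) (Iio 0) (wedge ((0, 1), 0) (J (0, 1), 0)) (dForm β) +
    cur (iB q) (Iio 0) (wedge ((1, 0), 0) (J (1, 0), 0)) (dForm β) +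
    cur (iC q) (Ioi 0) (wedge ((1, 1), 0) (J (1, 1), 0)) (dForm β) = 0
  rw [cur_dForm hA _ β a1 a2, cur_dForm hB _ β b1 b2, cur_dForm hC _ β c1 c2]
  have z1 : ((0 : ℝ), ((0 : ℝ), (0 : ℝ))) = 0 := rfl
  have eA' : ∫ p in (Iio (0 : ℝ)) ×ˢ (univ : Set (ℝ × ℝ)),
      fderiv ℝ (coef β (J (0, 1), 0) ∘ iA q) p (1, (0, 0)) = _ := eA
  have eB' : ∫ p in (Iio (0 : ℝ)) ×ˢ (univ : Set (ℝ × ℝ)),
      fderiv ℝ (coef β (J (1, 0), 0) ∘ iB q) p (1, (0, 0)) = _ := eB
  have eC' : ∫ p in (Ioi (0 : ℝ)) ×ˢ (univ : Set (ℝ × ℝ)),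
      fderiv ℝ (coef β (J (1, 1), 0) ∘ iC q) p (1, (0, 0)) = _ := eC
  rw [eA', eB', eC', tA, tB, tC]
  have hsum : ∀ p : ℝ × ℝ, (coef β (J (1, 1), 0) ∘ iC q) (0, p) =
      (coef β (J (0, 1), 0) ∘ iA q) (0, p) + (coef β (J (1, 0), 0) ∘ iB q) (0, p) := by
    intro p
    have hv : ((J (1, 1), 0) : M q) = (J (0, 1), 0) + (J (1, 0), 0) := by
      simp [J]
    rw [hv]
    simp only [Function.comp_apply, iA_apply, iB_apply, iC_apply]
    exact coef_add β _ _ _
  simp_rw [hsum]
  rw [integral_add]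
  · ring
  · have hc := pull_contDiff (ι := iA q) β (J (0, 1), 0)
    exact (hc.continuous.comp (continuous_const.prodMk continuous_id)).integrable_of_hasCompactSupport
      (R729.Trop.compact_slice' (pull_supp hA β _) 0)
  · have hc := pull_contDiff (ι := iB q) β (J (1, 0), 0)
    exact (hc.continuous.comp (continuous_const.prodMk continuous_id)).integrable_of_hasCompactSupport
      (R729.Trop.compact_slice' (pull_supp hB β _) 0)

/-! ### It is a `C`-current -/

/-- The Dirac current of a 2-vector. -/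
def dirac {U : Opens (M q)} (x : M q) (w : Alt q 2 →L[ℝ] ℝ) : Current 2 U where
  toFun := fun α => w (α x)
  map_add' := fun α β => by
    show w (α x + β x) = _
    rw [map_add]
  map_smul' := fun c α => by
    show w (c • α x) = _
    rw [map_smul]
    rfl
  cont := w.continuous.comp (continuous_eval_const x)

lemma wedge_mem (v : ℂ × ℂ) : wedge (v, 0) (J v, 0) ∈ structureCone q :=
  subset_closure ⟨1, fun _ => 1, fun _ => v, fun _ => zero_le_one, fun a => by simp⟩

lemma IsDiracSum.add {U : Opens (M q)} {T₁ T₂ : Form 2 U → ℝ} (h₁ : IsDiracSum T₁)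
    (h₂ : IsDiracSum T₂) : IsDiracSum (T₁ + T₂) := by
  obtain ⟨n, t, x, w, h, e⟩ := h₁
  obtain ⟨m, t', x', w', h', e'⟩ := h₂
  refine ⟨n + m, Fin.append t t', Fin.append x x', Fin.append w w', fun i => ?_, fun α => ?_⟩
  · refine Fin.addCases (fun i => ?_) (fun i => ?_) i
    · simpa only [Fin.append_left] using h i
    · simpa only [Fin.append_right] using h' i
  · rw [Fin.sum_univ_add]
    simp only [Fin.append_left, Fin.append_right]
    rw [← e, ← e']
    rfl

lemma IsDiracSum.smul {U : Opens (M q)} {T : Form 2 U → ℝ} (h : IsDiracSum T) {a : ℝ}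
    (ha : 0 ≤ a) : IsDiracSum (a • T) := by
  obtain ⟨n, t, x, w, h, e⟩ := h
  refine ⟨n, fun i => a * t i, x, w, fun i => ⟨mul_nonneg ha (h i).1, (h i).2⟩, fun α => ?_⟩
  show a * T α = _
  rw [e, Finset.mul_sum]
  exact Finset.sum_congr rfl fun i _ => by ring

lemma isDiracSum_dirac {U : Opens (M q)} {x : M q} (hx : x ∈ U) {w : TwoVec q}
    (hw : w ∈ structureCone q) : IsDiracSum (fun α : Form 2 U => w (α x)) :=
  ⟨1, fun _ => 1, fun _ => x, fun _ => w, fun _ => ⟨zero_le_one, hx, hw⟩, fun α => by simp⟩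

lemma IsDiracSum.exists_current {U : Opens (M q)} {T : Form 2 U → ℝ} (h : IsDiracSum T) :
    ∃ T' : Current 2 U, T = fun α => T' α := by
  obtain ⟨n, t, x, w, -, e⟩ := h
  refine ⟨∑ i, t i • dirac (x i) (w i), ?_⟩
  ext α
  rw [e]
  simp only [sum_apply]
  rfl

/-- Hahn-Banach: a current which is non-positive on every form on which the Dirac currents of the
cone are non-positive is a `C`-current. -/
lemma isCCurrent_of_nonpos {U : Opens (M q)} {c : Current 2 U}
    (hc : ∀ α : Form 2 U, (∀ x ∈ U, ∀ w ∈ structureCone q, w (α x) ≤ 0) → c α ≤ 0) :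
    IsCCurrent c := by
  classical
  rw [IsCCurrent]
  by_contra hnot
  obtain ⟨F, u, hu, hsub⟩ := isOpen_pi_iff.1 (isClosed_closure.isOpen_compl) _ hnot
  set G : Set (Form 2 U → ℝ) := {T : Form 2 U → ℝ | IsDiracSum T} with hG
  let R : (Form 2 U → ℝ) → (F → ℝ) := fun T α => T α
  have hconv : Convex ℝ (R '' G) := by
    rintro _ ⟨T₁, h₁, rfl⟩ _ ⟨T₂, h₂, rfl⟩ a b ha hb _
    exact ⟨a • T₁ + b • T₂, (IsDiracSum.smul h₁ ha).add (IsDiracSum.smul h₂ hb), rfl⟩
  have hmem : R (fun α => c α) ∈ closure (R '' G) := by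
    by_contra hR
    obtain ⟨f, t, hf, ht⟩ := geometric_hahn_banach_closed_point hconv.closure isClosed_closure hR
    let a : Form 2 U := ∑ α : F, f (Pi.single α 1) • (α : Form 2 U)
    have hfa : ∀ T : Current 2 U, f (R (fun α => T α)) = T a := by
      intro T
      have h1 : R (fun α => T α) = ∑ α : F, T α • (Pi.single α (1 : ℝ) : F → ℝ) := by
        ext β
        rw [Finset.sum_apply]
        simp [R, Pi.single_apply]
      rw [h1, map_sum, map_sum]
      refine Finset.sum_congr rfl fun α _ => ?_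
      rw [map_smul, map_smul]
      simp [mul_comm]
    have hfa' : ∀ T ∈ G, f (R T) = T a := by
      intro T hT
      obtain ⟨T', rfl⟩ := IsDiracSum.exists_current hT
      exact hfa T'
    have h0 : 0 < t := by
      have hz : (0 : Form 2 U → ℝ) ∈ G := ⟨0, Fin.elim0, Fin.elim0, Fin.elim0,
        fun i => i.elim0, fun α => by simp⟩
      have := hf (R 0) (subset_closure ⟨0, hz, rfl⟩)
      rw [hfa' _ hz] at this
      simpa using this
    have hneg : ∀ x ∈ U, ∀ w ∈ structureCone q, w (a x) ≤ 0 := by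
      intro x hx w hw
      by_contra hpos
      push Not at hpos
      obtain ⟨n, hn⟩ := exists_nat_gt (t / w (a x))
      have hD : (n : ℝ) • (fun α : Form 2 U => w (α x)) ∈ G :=
        (isDiracSum_dirac hx hw).smul (Nat.cast_nonneg n)
      have h1 := hf _ (subset_closure ⟨_, hD, rfl⟩)
      rw [hfa' _ hD] at h1
      have h2 : ((n : ℝ) • (fun α : Form 2 U => w (α x))) a = n * w (a x) := rfl
      rw [h2] at h1
      rw [div_lt_iff₀ hpos] at hn
      linarith
    have h1 := hc a hneg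
    rw [← hfa] at h1
    linarith
  have hopen : IsOpen (univ.pi fun α : F => u α) :=
    isOpen_set_pi finite_univ fun α _ => (hu α α.2).1
  obtain ⟨_, hx1, T, hT, rfl⟩ := mem_closure_iff.1 hmem _ hopen fun α _ => (hu α α.2).2
  have : T ∈ (F : Set (Form 2 U)).pi u :=
    fun α hα => hx1 ⟨α, hα⟩ (mem_univ _)
  exact hsub this (subset_closure hT)

lemma isCCurrent_tropCurrent : IsCCurrent (tropCurrent q) := by
  apply isCCurrent_of_nonpos
  intro α hα
  show cur (iA q) (Iio 0) (wedge ((0, 1), 0) (J (0, 1), 0)) α +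
    cur (iB q) (Iio 0) (wedge ((1, 0), 0) (J (1, 0), 0)) α +
    cur (iC q) (Ioi 0) (wedge ((1, 1), 0) (J (1, 1), 0)) α ≤ 0
  rw [cur_apply norm_iA, cur_apply norm_iB, cur_apply norm_iC]
  have h1 : ∀ (ι : (ℝ × (ℝ × ℝ)) →L[ℝ] M q) (I : Set ℝ) (v : ℂ × ℂ),
      ∫ p in I ×ˢ (univ : Set (ℝ × ℝ)), wedge (v, 0) (J v, 0) (α (ι p)) ≤ 0 :=
    fun ι I v => integral_nonpos fun p => hα _ trivial _ (wedge_mem v)
  have := h1 (iA q) (Iio 0) (0, 1)
  have := h1 (iB q) (Iio 0) (1, 0)
  have := h1 (iC q) (Ioi 0) (1, 1)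
  linarith

/-! ### The Kähler form -/

/-- The area form of `ℂ`. -/
def area : ℂ [⋀^Fin 2]→L[ℝ] ℝ where
  toFun := fun v => (v 0).re * (v 1).im - (v 0).im * (v 1).re
  map_update_add' := by
    intro _ m i x y
    fin_cases i
    · simp
      ring
    · simp
      ring
  map_update_smul' := by
    intro _ m i c x
    fin_cases i
    · simp
      ring
    · simp
      ring
  cont := by fun_prop
  map_eq_zero_of_eq' := by
    intro v i j hij hne
    fin_cases i <;> fin_cases j
    · exact absurd rfl hne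
    · simp only [Fin.zero_eta, Fin.mk_one] at hij
      rw [hij]
      ring
    · simp only [Fin.zero_eta, Fin.mk_one] at hij
      rw [hij]
      ring
    · exact absurd rfl hne

/-- The leafwise Kähler form. -/
def kah (q : ℕ) : Alt q 2 :=
  area.compContinuousLinearMap
      ((ContinuousLinearMap.fst ℝ ℂ ℂ).comp (ContinuousLinearMap.fst ℝ (ℂ × ℂ) (Fin q → ℝ))) +
    area.compContinuousLinearMap
      ((ContinuousLinearMap.snd ℝ ℂ ℂ).comp (ContinuousLinearMap.fst ℝ (ℂ × ℂ) (Fin q → ℝ)))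

lemma kah_apply (v w : M q) : kah q ![v, w] =
    (v.1.1.re * w.1.1.im - v.1.1.im * w.1.1.re) + (v.1.2.re * w.1.2.im - v.1.2.im * w.1.2.re) := rfl

lemma kah_J (v : ℂ × ℂ) : kah q ![(v, 0), (Complex.I • v, 0)] =
    Complex.normSq v.1 + Complex.normSq v.2 := by
  rw [kah_apply]
  simp [Complex.normSq_apply]

lemma kah_ne_zero : kah q ≠ 0 := by
  intro h
  have h1 := kah_J (q := q) (1, 0)
  rw [h] at h1
  simp at h1

/-- A cut-off function: smooth, non-negative, with compact support in `U`. -/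
structure IsCutoff (U : Opens (M q)) (χ : M q → ℝ) : Prop where
  smooth : ContDiff ℝ ∞ χ
  compact : HasCompactSupport χ
  supp : tsupport χ ⊆ U
  nonneg : ∀ x, 0 ≤ χ x

/-- The form `χ ω`, with the Kähler form `ω`. -/
def kform {U : Opens (M q)} {χ : M q → ℝ} (hχ : IsCutoff U χ) : Form 2 U where
  toFun := fun x => χ x • kah q
  contDiff' := hχ.smooth.smul contDiff_const
  hasCompactSupport' := hχ.compact.smul_right
  tsupport_subset' := (tsupport_smul_subset_left _ _).trans hχ.supp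

lemma kform_apply {U : Opens (M q)} {χ : M q → ℝ} (hχ : IsCutoff U χ) (x : M q) :
    kform hχ x = χ x • kah q := rfl

section curves

variable {U : Opens (M q)} {S : Type} [TopologicalSpace S] [T2Space S] [ConnectedSpace S]
  [ChartedSpace ℂ S] [IsManifold 𝓘(ℂ) ω S] {h : S → ℂ × ℂ} {y : Fin q → ℝ}

omit [T2Space S] [ConnectedSpace S] in
lemma integrand (hh : MDifferentiable 𝓘(ℂ) 𝓘(ℂ, ℂ × ℂ) h) {χ : M q → ℝ} (hχ : IsCutoff U χ)
    {φ : OpenPartialHomeomorph S ℂ} (hφ : φ ∈ atlas ℂ S) {w : ℂ} (hw : w ∈ φ.target) :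
    kform hχ (h (φ.symm w), y) ![fderiv ℝ ((fun z => (h z, y)) ∘ φ.symm) w 1,
      fderiv ℝ ((fun z => (h z, y)) ∘ φ.symm) w Complex.I] =
    χ (h (φ.symm w), y) * (Complex.normSq (deriv (h ∘ φ.symm) w).1 +
      Complex.normSq (deriv (h ∘ φ.symm) w).2) := by
  have h1 : HasDerivAt (h ∘ φ.symm) (deriv (h ∘ φ.symm) w) w :=
    ((R729.Trop.analytic_chart hh hφ w hw).differentiableAt).hasDerivAt
  have h2 : HasFDerivAt (h ∘ φ.symm)
      (((ContinuousLinearMap.toSpanSingleton ℂ (deriv (h ∘ φ.symm) w))).restrictScalars ℝ) w :=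
    h1.hasFDerivAt.restrictScalars ℝ
  have h3 : HasFDerivAt ((fun z => ((h z, y) : M q)) ∘ φ.symm)
      ((((ContinuousLinearMap.toSpanSingleton ℂ (deriv (h ∘ φ.symm) w))).restrictScalars ℝ).prod
        (0 : ℂ →L[ℝ] (Fin q → ℝ))) w := h2.prodMk (hasFDerivAt_const y w)
  rw [h3.fderiv, kform_apply]
  show χ _ * kah q ![_, _] = _
  congr 1
  have e1 : ((((ContinuousLinearMap.toSpanSingleton ℂ (deriv (h ∘ φ.symm) w))).restrictScalars
      ℝ).prod (0 : ℂ →L[ℝ] (Fin q → ℝ))) 1 = (deriv (h ∘ φ.symm) w, 0) := by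
    simp
  have e2 : ((((ContinuousLinearMap.toSpanSingleton ℂ (deriv (h ∘ φ.symm) w))).restrictScalars
      ℝ).prod (0 : ℂ →L[ℝ] (Fin q → ℝ))) Complex.I = (Complex.I • deriv (h ∘ φ.symm) w, 0) := by
    simp
  rw [e1, e2, kah_J]

omit [T2Space S] [ConnectedSpace S] [IsManifold 𝓘(ℂ) ω S] in
lemma not_const (hP : IsPseudoholomorphic U S h y) : ¬ ∀ z z', h z = h z' := by
  intro hc
  obtain ⟨z₀, hz₀, -⟩ := hP.somewhere_injective
  apply hz₀
  have : h = fun _ => h z₀ := funext fun z => hc z z₀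
  rw [this]
  exact mfderiv_const

omit [T2Space S] in
/-- The integral of `χ ω` over a pseudoholomorphic curve. -/
lemma integral_curve (hP : IsPseudoholomorphic U S h y) {χ : M q → ℝ} (hχ : IsCutoff U χ)
    {I : ℝ} (hI : IsIntegralOver (fun z => (h z, y)) (kform hχ) I) :
    0 ≤ I ∧ (I = 0 ↔ ∀ z, χ (h z, y) = 0) := by
  obtain ⟨n, φ, ρ, hφ, hρc, hρ0, hρs, hρsub, hsum, hI⟩ := hI
  let G : Fin n → ℂ → ℝ := fun i w => ρ i ((φ i).symm w) * (χ (h ((φ i).symm w), y) *
    (Complex.normSq (deriv (h ∘ (φ i).symm) w).1 + Complex.normSq (deriv (h ∘ (φ i).symm) w).2))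
  have hG : ∀ i, ∫ w in (φ i).target, ρ i ((φ i).symm w) *
      kform hχ (h ((φ i).symm w), y) ![fderiv ℝ ((fun z => (h z, y)) ∘ (φ i).symm) w 1,
        fderiv ℝ ((fun z => (h z, y)) ∘ (φ i).symm) w Complex.I] =
      ∫ w in (φ i).target, G i w := by
    intro i
    refine setIntegral_congr_fun (φ i).open_target.measurableSet fun w hw => ?_
    show ρ i _ * _ = _
    rw [integrand hP.holomorphic hχ (hφ i) hw]
  have hI' : I = ∑ i, ∫ w in (φ i).target, G i w := by
    rw [hI]
    exact Finset.sum_congr rfl fun i _ => hG i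
  have hG0 : ∀ i w, 0 ≤ G i w := fun i w =>
    mul_nonneg (hρ0 i _) (mul_nonneg (hχ.nonneg _)
      (add_nonneg (Complex.normSq_nonneg _) (Complex.normSq_nonneg _)))
  have hint0 : ∀ i, 0 ≤ ∫ w in (φ i).target, G i w := fun i => integral_nonneg (hG0 i)
  refine ⟨by rw [hI']; exact Finset.sum_nonneg fun i _ => hint0 i, ?_, ?_⟩
  · intro hz
    rw [hI'] at hz
    have hz' := (Finset.sum_eq_zero_iff_of_nonneg fun i _ => hint0 i).1 hz
    have hhc : Continuous h := hP.holomorphic.continuous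
    have hcont : ∀ i, ContinuousOn (G i) (φ i).target := by
      intro i
      have han := R729.Trop.analytic_chart hP.holomorphic (hφ i)
      have c1 : ContinuousOn (φ i).symm (φ i).target := (φ i).continuousOn_symm
      have c2 : ContinuousOn (deriv (h ∘ (φ i).symm)) (φ i).target := han.deriv.continuousOn
      have c3 : Continuous fun z => ((h z, y) : M q) := by fun_prop
      have c4 : Continuous χ := hχ.smooth.continuous
      refine ((hρc i).comp_continuousOn c1).mul (((c4.comp c3).comp_continuousOn c1).mul ?_)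
      exact (Complex.continuous_normSq.comp_continuousOn (continuous_fst.comp_continuousOn c2)).add
        (Complex.continuous_normSq.comp_continuousOn (continuous_snd.comp_continuousOn c2))
    have hintg : ∀ i, IntegrableOn (G i) (φ i).target := by
      intro i
      let C : Set ℂ := φ i '' tsupport (ρ i)
      have hCc : IsCompact C := (hρs i).image_of_continuousOn ((φ i).continuousOn.mono (hρsub i))
      have hCt : C ⊆ (φ i).target := by
        rintro _ ⟨z, hz, rfl⟩
        exact (φ i).map_source (hρsub i hz)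
      have h1 : IntegrableOn (G i) C := ((hcont i).mono hCt).integrableOn_compact hCc
      refine h1.of_forall_sdiff_eq_zero (φ i).open_target.measurableSet ?_
      rintro w ⟨hw, hwC⟩
      have : (φ i).symm w ∉ tsupport (ρ i) := by
        intro hmem
        exact hwC ⟨_, hmem, (φ i).right_inv hw⟩
      show ρ i ((φ i).symm w) * _ = 0
      rw [image_eq_zero_of_notMem_tsupport this, zero_mul]
    have hzero : ∀ i, ∀ w ∈ (φ i).target, G i w = 0 := by
      intro i
      have h1 := (setIntegral_eq_zero_iff_of_nonneg_ae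
        (Filter.Eventually.of_forall (hG0 i)) (hintg i)).1 (hz' i (Finset.mem_univ i))
      have h2 := Measure.eqOn_open_of_ae_eq h1 (φ i).open_target (hcont i) continuousOn_const
      intro w hw
      exact h2 hw
    by_contra hne
    push Not at hne
    obtain ⟨z₀, hz₀⟩ := hne
    have hsup : ((h z₀, y) : M q) ∈ tsupport (kform hχ) := by
      apply subset_tsupport
      rw [Function.mem_support, kform_apply]
      exact smul_ne_zero hz₀ kah_ne_zero
    have hs1 := hsum z₀ hsup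
    obtain ⟨i, hi⟩ : ∃ i, ρ i z₀ ≠ 0 := by
      by_contra hcon
      push Not at hcon
      simp [hcon] at hs1
    have hzs : z₀ ∈ (φ i).source := hρsub i (subset_tsupport _ hi)
    have hcu : Continuous fun z => χ (h z, y) := by
      have c4 : Continuous χ := hχ.smooth.continuous
      have c3 : Continuous fun z => ((h z, y) : M q) := by fun_prop
      exact c4.comp c3
    have hev : ∀ᶠ z in 𝓝 z₀, ρ i z ≠ 0 ∧ χ (h z, y) ≠ 0 :=
      ((hρc i).continuousAt.eventually_ne hi).and (hcu.continuousAt.eventually_ne hz₀)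
    have hsymm : Filter.Tendsto (φ i).symm (𝓝 (φ i z₀)) (𝓝 z₀) := by
      have := (φ i).continuousAt_symm ((φ i).map_source hzs)
      rw [ContinuousAt, (φ i).left_inv hzs] at this
      exact this
    have hev2 : ∀ᶠ w in 𝓝 (φ i z₀), w ∈ (φ i).target ∧ deriv (h ∘ (φ i).symm) w = 0 := by
      filter_upwards [hsymm.eventually hev, (φ i).open_target.mem_nhds ((φ i).map_source hzs)]
        with w hw hwt
      refine ⟨hwt, ?_⟩
      have h1 := hzero i w hwt
      have h2 := (mul_eq_zero.1 ((mul_eq_zero.1 h1).resolve_left hw.1)).resolve_left hw.2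
      have h3 := Complex.normSq_nonneg (deriv (h ∘ (φ i).symm) w).1
      have h4 := Complex.normSq_nonneg (deriv (h ∘ (φ i).symm) w).2
      refine Prod.ext ?_ ?_
      · exact Complex.normSq_eq_zero.1 (by linarith)
      · exact Complex.normSq_eq_zero.1 (by linarith)
    obtain ⟨ε, hε, hball⟩ := Metric.eventually_nhds_iff_ball.1 hev2
    have hconst : ∀ w ∈ Metric.ball (φ i z₀) ε, (h ∘ (φ i).symm) w = (h ∘ (φ i).symm) (φ i z₀) := by
      intro w hw
      refine Metric.isOpen_ball.is_const_of_deriv_eq_zero (convex_ball _ _).isPreconnected ?_ ?_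
        hw (Metric.mem_ball_self hε)
      · intro w hw
        exact (R729.Trop.analytic_chart hP.holomorphic (hφ i) w
          (hball w hw).1).differentiableAt.differentiableWithinAt
      · intro w hw
        exact (hball w hw).2
    have hloc : ∀ᶠ z in 𝓝 z₀, h z = h z₀ := by
      have h4 : ∀ᶠ z in 𝓝 z₀, φ i z ∈ Metric.ball (φ i z₀) ε :=
        ((φ i).continuousAt hzs).eventually (Metric.ball_mem_nhds _ hε)
      filter_upwards [h4, (φ i).open_source.mem_nhds hzs] with z hz hzs'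
      have := hconst _ hz
      simpa [(φ i).left_inv hzs', (φ i).left_inv hzs] using this
    have hall := R729.Trop.const_of_eventually hP.holomorphic hloc
    exact not_const hP fun z z' => by rw [hall z, hall z']
  · intro hz
    rw [hI']
    refine Finset.sum_eq_zero fun i _ => ?_
    have : ∀ w, G i w = 0 := by
      intro w
      show ρ i _ * (χ _ * _) = 0
      rw [hz, zero_mul, mul_zero]
    simp [this]

end curves

/-! ### Values of the current on the forms `χ ω` -/

lemma value {χ : M q → ℝ} (hχ : IsCutoff (⊤ : Opens (M q)) χ) :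
    tropCurrent q (kform hχ) =
      (∫ p in (Iio (0 : ℝ)) ×ˢ (univ : Set (ℝ × ℝ)), χ (iA q p)) +
      (∫ p in (Iio (0 : ℝ)) ×ˢ (univ : Set (ℝ × ℝ)), χ (iB q p)) +
      ∫ p in (Ioi (0 : ℝ)) ×ˢ (univ : Set (ℝ × ℝ)), χ (iC q p) * 2 := by
  show cur (iA q) (Iio 0) (wedge ((0, 1), 0) (J (0, 1), 0)) (kform hχ) +
    cur (iB q) (Iio 0) (wedge ((1, 0), 0) (J (1, 0), 0)) (kform hχ) +
    cur (iC q) (Ioi 0) (wedge ((1, 1), 0) (J (1, 1), 0)) (kform hχ) = _
  rw [cur_apply norm_iA, cur_apply norm_iB, cur_apply norm_iC]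
  have h1 : ∀ (v : ℂ × ℂ) (x : M q), wedge (v, 0) (J v, 0) (kform hχ x) =
      χ x * (Complex.normSq v.1 + Complex.normSq v.2) := by
    intro v x
    rw [kform_apply]
    show χ x * kah q ![(v, 0), (Complex.I • v, 0)] = _
    rw [kah_J]
  simp_rw [h1]
  norm_num

lemma iA_mem {p : ℝ × (ℝ × ℝ)} (hp : p.1 ≤ 0) : (iA q p).1 ∈ R729.Trop.trop :=
  Or.inl ⟨rfl, hp⟩

lemma iB_mem {p : ℝ × (ℝ × ℝ)} (hp : p.1 ≤ 0) : (iB q p).1 ∈ R729.Trop.trop :=
  Or.inr (Or.inl ⟨rfl, hp⟩)

lemma iC_mem {p : ℝ × (ℝ × ℝ)} (hp : 0 ≤ p.1) : (iC q p).1 ∈ R729.Trop.trop :=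
  Or.inr (Or.inr ⟨rfl, hp⟩)

lemma value_zero {χ : M q → ℝ} (hχ : IsCutoff (⊤ : Opens (M q)) χ)
    (h0 : ∀ x : M q, x.1 ∈ R729.Trop.trop → x.2 = 0 → χ x = 0) :
    tropCurrent q (kform hχ) = 0 := by
  rw [value]
  have a : ∫ p in (Iio (0 : ℝ)) ×ˢ (univ : Set (ℝ × ℝ)), χ (iA q p) = 0 := by
    refine setIntegral_eq_zero_of_forall_eq_zero fun p hp => h0 _ (iA_mem (le_of_lt hp.1)) rfl
  have b : ∫ p in (Iio (0 : ℝ)) ×ˢ (univ : Set (ℝ × ℝ)), χ (iB q p) = 0 := by
    refine setIntegral_eq_zero_of_forall_eq_zero fun p hp => h0 _ (iB_mem (le_of_lt hp.1)) rfl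
  have c : ∫ p in (Ioi (0 : ℝ)) ×ˢ (univ : Set (ℝ × ℝ)), χ (iC q p) * 2 = 0 := by
    refine setIntegral_eq_zero_of_forall_eq_zero fun p hp => ?_
    rw [h0 _ (iC_mem (le_of_lt hp.1)) rfl, zero_mul]
  rw [a, b, c]
  norm_num

lemma value_pos {χ : M q → ℝ} (hχ : IsCutoff (⊤ : Opens (M q)) χ) (h0 : χ 0 ≠ 0) :
    0 < tropCurrent q (kform hχ) := by
  rw [value]
  have hcon : Continuous fun p => χ (iA q p) := hχ.smooth.continuous.comp (iA q).continuous
  have hsupp : HasCompactSupport fun p => χ (iA q p) := by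
    obtain ⟨R, hR⟩ := hχ.compact.isBounded.subset_closedBall (0 : M q)
    refine HasCompactSupport.intro (K := Metric.closedBall 0 R) (isCompact_closedBall _ _) ?_
    intro p hp
    refine image_eq_zero_of_notMem_tsupport (f := χ) (x := iA q p) fun h => hp ?_
    have := hR h
    rw [mem_closedBall_zero_iff] at this ⊢
    exact (norm_iA p).trans this
  have a : 0 < ∫ p in (Iio (0 : ℝ)) ×ˢ (univ : Set (ℝ × ℝ)), χ (iA q p) := by
    rw [setIntegral_pos_iff_support_of_nonneg_ae
      (Filter.Eventually.of_forall fun p => hχ.nonneg _)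
      (hcon.integrable_of_hasCompactSupport hsupp).integrableOn]
    have hopen : IsOpen (Function.support (fun p => χ (iA q p)) ∩
        (Iio (0 : ℝ)) ×ˢ (univ : Set (ℝ × ℝ))) :=
      hcon.isOpen_support.inter (isOpen_Iio.prod isOpen_univ)
    refine hopen.measure_pos _ ?_
    have h1 : ∀ᶠ t : ℝ in 𝓝[<] 0, χ (iA q (t, 0)) ≠ 0 := by
      have h2 : Continuous fun t : ℝ => χ (iA q (t, 0)) :=
        hcon.comp (continuous_id.prodMk continuous_const)
      have h3 : χ (iA q (0, 0)) ≠ 0 := by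
        rw [show ((0 : ℝ), (0 : ℝ × ℝ)) = 0 from rfl, map_zero]
        exact h0
      exact (h2.continuousAt.eventually_ne h3).filter_mono nhdsWithin_le_nhds
    obtain ⟨t, ht, ht0⟩ := (h1.and self_mem_nhdsWithin).exists
    exact ⟨(t, 0), ht, ht0, trivial⟩
  have b : 0 ≤ ∫ p in (Iio (0 : ℝ)) ×ˢ (univ : Set (ℝ × ℝ)), χ (iB q p) :=
    integral_nonneg fun p => hχ.nonneg _
  have c : 0 ≤ ∫ p in (Ioi (0 : ℝ)) ×ˢ (univ : Set (ℝ × ℝ)), χ (iC q p) * 2 :=
    integral_nonneg fun p => mul_nonneg (hχ.nonneg _) (by norm_num)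
  linarith

lemma not_superposition (U : Opens (M q)) (h0 : (0 : M q) ∈ U) :
    ¬ IsSuperposition (tropCurrent q) U := by
  rintro ⟨Ω, _, ν, κ, hκ, hc⟩
  obtain ⟨r', hr', hr'U⟩ := Metric.isOpen_iff.1 U.isOpen 0 h0
  obtain ⟨r, hr, hrr'⟩ := exists_between hr'
  have hclosed : Metric.closedBall (0 : M q) r ⊆ U :=
    (Metric.closedBall_subset_ball hrr').trans hr'U
  have hball : Metric.ball (0 : M q) r ⊆ U := Metric.ball_subset_closedBall.trans hclosed
  -- the two cut-off functions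
  have hcut : ∀ s : Set (M q), IsOpen s → s ⊆ Metric.ball 0 r → ∃ χ : M q → ℝ,
      Function.support χ = s ∧ IsCutoff U χ := by
    intro s hs hsub
    obtain ⟨χ, h1, h2, h3⟩ := hs.exists_contDiff_support_eq (n := ⊤)
    have h4 : tsupport χ ⊆ Metric.closedBall 0 r := by
      rw [tsupport, h1]
      exact (closure_mono hsub).trans Metric.closure_ball_subset_closedBall
    exact ⟨χ, h1, h2, (isCompact_closedBall (0 : M q) r).of_isClosed_subset (isClosed_tsupport _) h4,
      h4.trans hclosed, fun x => (h3 (mem_range_self x)).1⟩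
  let Sset : Set (M q) := {x | x.1 ∈ R729.Trop.trop ∧ x.2 = 0}
  have hSc : IsClosed Sset :=
    (R729.Trop.isClosed_trop.preimage continuous_fst).inter
      (isClosed_eq continuous_snd continuous_const)
  obtain ⟨χ₁, hs₁, hχ₁⟩ := hcut (Metric.ball 0 r ∩ Ssetᶜ)
    (Metric.isOpen_ball.inter hSc.isOpen_compl) inter_subset_left
  obtain ⟨χ₂, hs₂, hχ₂⟩ := hcut (Metric.ball 0 r) Metric.isOpen_ball subset_rfl
  have htop : ∀ {χ : M q → ℝ}, IsCutoff U χ → IsCutoff (⊤ : Opens (M q)) χ :=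
    fun h => ⟨h.smooth, h.compact, fun _ _ => trivial, h.nonneg⟩
  have hext : ∀ {χ : M q → ℝ} (h : IsCutoff U χ), extend (kform h) = kform (htop h) :=
    fun h => rfl
  -- the curves
  have hcurve : ∀ s : Ω, (∀ {χ : M q → ℝ} (h : IsCutoff U χ), 0 ≤ κ s (kform h)) ∧
      (κ s (kform hχ₁) = 0 → κ s (kform hχ₂) = 0) := by
    intro s
    obtain ⟨S, iT, iT2, iC, iCh, iM, h, y, hP, hI⟩ := hκ s
    refine ⟨fun {χ} hχ => (integral_curve hP hχ (hI _)).1, fun hz => ?_⟩
    have h1 := (integral_curve hP hχ₁ (hI _)).2.1 hz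
    have hin : ∀ z, ((h z, y) : M q) ∈ Metric.ball 0 r → h z ∈ R729.Trop.trop := by
      intro z hzb
      by_contra hn
      have : ((h z, y) : M q) ∈ Function.support χ₁ := by
        rw [hs₁]
        exact ⟨hzb, fun hS => hn hS.1⟩
      exact this (h1 z)
    have h2 := R729.Trop.no_curve hball hP.holomorphic hP.proper (not_const hP) hin
    refine (integral_curve hP hχ₂ (hI _)).2.2 fun z => ?_
    by_contra hn
    have : ((h z, y) : M q) ∈ Function.support χ₂ := hn
    rw [hs₂] at this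
    exact h2 z this
  have e1 : ∫ s, κ s (kform hχ₁) ∂ν = 0 := by
    rw [← (hc (kform hχ₁) (extend (kform hχ₁)) fun _ => rfl).2, hext]
    apply value_zero
    intro x hx hx2
    by_contra hn
    have : x ∈ Function.support χ₁ := hn
    rw [hs₁] at this
    exact this.2 ⟨hx, hx2⟩
  have e2 := (integral_eq_zero_iff_of_nonneg (fun s => (hcurve s).1 hχ₁)
    (hc (kform hχ₁) (extend (kform hχ₁)) fun _ => rfl).1).1 e1
  have e3 : ∫ s, κ s (kform hχ₂) ∂ν = 0 := by
    refine integral_eq_zero_of_ae ?_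
    filter_upwards [e2] with s hs using (hcurve s).2 hs
  rw [← (hc (kform hχ₂) (extend (kform hχ₂)) fun _ => rfl).2, hext] at e3
  have h2 : χ₂ 0 ≠ 0 := by
    have : (0 : M q) ∈ Function.support χ₂ := by
      rw [hs₂]
      exact Metric.mem_ball_self hr
    exact this
  exact (value_pos (htop hχ₂) h2).ne' e3

/-- **A leafwise complex cycle need not be locally a superposition of pseudoholomorphic curves.**
For every `q` there is a `C`-cycle on `M = ℂ² × ℝ^q`, foliated by `ℂ² × {y}` with the standard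
complex structure on the leaves, which on no neighbourhood of `0` is a superposition of
pseudoholomorphic curves. -/
theorem result (q : ℕ) : ∃ c : Current 2 (⊤ : Opens (M q)), IsCycle c ∧ IsCCurrent c ∧
    ∀ U : Opens (M q), (0 : M q) ∈ U → ¬ IsSuperposition c U :=
  ⟨tropCurrent q, isCycle_tropCurrent, isCCurrent_tropCurrent, not_superposition⟩

end Pool.Agent.Results.MP_03adb9_gt.TropicalCycle
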